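import Pool.Agent.H.MP_5f0f34_lc.D

set_option autoImplicit false

namespace Pool.Agent.Results.MP_5f0f34_lc.NotHighPA

open Pool.Agent.Lib.helper21.PR Pool.Agent.H.MP_fa5791_lc Filter Set Encodable Denumerable Function
open Nat.Partrec Nat.Partrec.Code Pool.Agent.Lib.helper21 Pool.Agent.H.MP_5f0f34_lc Pool.Agent.H.MP_3eaa21_lc

attribute [local irreducible] Primrec Computable

/-- every complete decidable theory (with infinite models) whose types are all computable has an `X`-decidable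
saturated model -/
def SatBounding (X : ℕ → Bool) : Prop :=
  ∀ (L : Lang) (M : Type) [Infinite M] (A : Str M), ComputablePred (Th L A) →
    (∀ n p, IsType L A [] n p → ComputablePred p) → ∃ B : Str ℕ, (∀ φ, Th L B φ ↔ Th L A φ) ∧ Saturated L B ∧
      TuringReducible (Fn.orc (Diag L B)) (Fn.orc X)

theorem result : ∃ X : ℕ → Bool, SatBounding X ∧ ¬ TuringReducible (Fn.orc (J (J O))) (Fn.orc (J X)) ∧
    ∀ f : ℕ → ℕ, TuringReducible (fun n => Part.some (f n)) (Fn.orc X) →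
      ∃ n, f n ∈ (ofNat Code n).eval n := by
  have st : ∀ (c : ℕ) Y, ∃ Z, Sm Y → Sm Z ∧ CI Z Y ∧ ∀ (L : Lang) (M : Type) [Infinite M] (A : Str M),
      (∀ φ, Th L A φ ↔ ((ofNat Code c).eval φ).Dom) → ComputablePred (Th L A) →
        (∀ n p, IsType L A [] n p → ComputablePred p) →
          ∃ B : Str ℕ, (∀ φ, Th L B φ ↔ Th L A φ) ∧ Saturated L B ∧ CI Z (Diag L B) := fun c Y => by
    by_cases h : ∃ (L : Lang) (M : Type) (_ : Infinite M) (A : Str M), (∀ φ, Th L A φ ↔ ((ofNat Code c).eval φ).Dom) ∧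
      ComputablePred (Th L A) ∧ ∀ n p, IsType L A [] n p → ComputablePred p
    swap
    · exact ⟨Y, fun a => ⟨a, ci_self _, fun L M _ A b d e => (h ⟨L, M, ‹_›, A, b, d, e⟩).elim⟩⟩
    obtain ⟨L, M, _, A, a, b, d⟩ := h
    by_cases y : Sm Y
    swap
    · exact ⟨Y, (absurd · y)⟩
    refine (one b d y).imp fun Z ⟨e, f, B, g⟩ _ => ⟨e, f, fun K N _ C h _ _ => ⟨B, ?_⟩⟩
    have k : Th K C = Th L A := funext fun φ => propext ((h φ).trans (a φ).symm)
    have : Fm K = Fm L := by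
      ext n φ
      rw [fm_iff (A := C), k, ← fm_iff]
    rw [k]
    unfold Saturated IsType Diag Th at *
    rwa [this]
  choose Z hZ using st
  obtain ⟨Y, y0, y1⟩ : ∃ Y : ℕ → ℕ → Bool, Y 0 = O ∧ ∀ k, Y (k + 1) = Z k (Y k) :=
    ⟨fun k => k.rec O Z, rfl, fun _ => rfl⟩
  have s : ∀ k, Sm (Y k) := fun k => k.rec (y0 ▸ sm_O) fun k h => y1 k ▸ (hZ k _ h).1
  obtain ⟨X, a, b⟩ := upper y0 s fun k => y1 k ▸ (hZ k _ (s k)).2.1
  refine ⟨X, fun L M _ A d e => ?_, fun h => ?_, fun f h => (a f (.of_red h)).1⟩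
  · obtain ⟨c, h⟩ := re_code d.to_re
    exact ((hZ (encode c) _ (s _)).2.2 L M A (by simpa using h) d e).imp fun B k =>
      ⟨k.1, k.2.1, (k.2.2.trans (y1 _ ▸ b _)).orc⟩
  obtain ⟨g, c, d⟩ := high_dom (.of_orc h)
  obtain ⟨-, f, e, k⟩ := a g c
  exact (k.and_eventually (d f e)).exists.elim fun _ l => l.1.not_ge l.2

end Pool.Agent.Results.MP_5f0f34_lc.NotHighPA
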